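import Pool.Agent.T2H38.UN.Defs
import Pool.Agent.R900.PT.Main

/-!
# Unramified cohomology of degree three over finite fields: the core of the proof
-/

set_option autoImplicit false

namespace Pool.Agent.T2H38.UN

open Pool.Agent.W495.FM
open Pool.Agent.TH117.GN (IsWeilEtale)
open Pool.Agent.R900.PT (IsPure IsTorsion m_eq_zero)

/-! ### abelian groups -/

theorem fg_iff_finite {A : Type} [AddCommGroup A] : AddGroup.FG A ↔ Module.Finite ℤ A := by
  rw [Module.Finite.iff_addGroup_fg]

theorem fg_of_injective {A B : Type} [AddCommGroup A] [AddCommGroup B] (f : A →+ B)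
    (hf : Function.Injective f) (hB : AddGroup.FG B) : AddGroup.FG A := by
  rw [fg_iff_finite] at hB ⊢
  exact Module.Finite.of_injective f.toIntLinearMap hf

theorem fg_of_surjective {A B : Type} [AddCommGroup A] [AddCommGroup B] (f : A →+ B)
    (hf : Function.Surjective f) (hA : AddGroup.FG A) : AddGroup.FG B := by
  rw [fg_iff_finite] at hA ⊢
  exact Module.Finite.of_surjective f.toIntLinearMap hf

theorem finite_of_fg_torsion {A : Type} [AddCommGroup A] (hA : AddGroup.FG A)
    (h : ∀ a : A, ∃ n : ℕ, 0 < n ∧ n • a = 0) : Finite A := by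
  rw [fg_iff_finite] at hA
  refine Module.finite_of_fg_torsion A fun a => ?_
  obtain ⟨n, hn, h1⟩ := h a
  refine ⟨⟨(n : ℤ), mem_nonZeroDivisors_of_ne_zero (by exact_mod_cast hn.ne')⟩, ?_⟩
  show (n : ℤ) • a = 0
  rw [natCast_zsmul, h1]

/-- If the kernel is finite and the image lies in a finite set, the group is finite. -/
theorem finite_of_hom {A B : Type} [AddCommGroup A] [AddCommGroup B] (f : A →+ B)
    (hk : {x : A | f x = 0}.Finite) (hr : (Set.range f).Finite) : Finite A := by
  have h1 : Finite f.ker := by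
    have : ((f.ker : Set A)).Finite := by
      refine hk.subset fun x hx => ?_
      exact hx
    exact this.to_subtype
  have h2 : Finite f.range := by
    have : ((f.range : Set B)).Finite := by
      rwa [AddMonoidHom.coe_range]
    exact this.to_subtype
  have h3 : Finite (A ⧸ f.ker) :=
    Finite.of_equiv _ (QuotientAddGroup.quotientKerEquivRange f).symm.toEquiv
  exact Finite.of_equiv _ (AddSubgroup.addGroupEquivQuotientProdAddSubgroup (s := f.ker)).symm

/-- If the kernel and the image are finitely generated so is the group. -/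
theorem fg_of_hom {A B : Type} [AddCommGroup A] [AddCommGroup B] (f : A →+ B)
    (hk : {x : A | f x = 0}.Finite) {R : AddSubgroup B} (hR : AddGroup.FG R)
    (hr : ∀ x, f x ∈ R) : AddGroup.FG A := by
  have hfin : Finite f.ker := by
    have : ((f.ker : Set A)).Finite := by
      refine hk.subset fun x hx => ?_
      exact hx
    exact this.to_subtype
  rw [fg_iff_finite] at hR ⊢
  set g : A →ₗ[ℤ] R := (f.codRestrict R hr).toIntLinearMap with hg
  have h1 : Module.Finite ℤ (LinearMap.ker g) := by
    have : Finite (LinearMap.ker g) := by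
      have h2 : (((LinearMap.ker g : Submodule ℤ A) : Set A)).Finite := by
        refine hk.subset fun x hx => ?_
        have h3 : g x = 0 := hx
        have h4 : ((g x : R) : B) = 0 := by rw [h3]; rfl
        exact h4
      exact h2.to_subtype
    exact Module.Finite.of_finite
  have h2 : Module.Finite ℤ (LinearMap.range g) := inferInstance
  have h3 : Module.Finite ℤ (A ⧸ LinearMap.ker g) :=
    Module.Finite.equiv g.quotKerEquivRange.symm
  exact Module.Finite.of_submodule_quotient (LinearMap.ker g)

/-- The multiplication by `n > 0` on a finitely generated group has a finite cokernel, in terms of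
representatives. -/
theorem finite_mod {A : Type} [AddCommGroup A] (hA : AddGroup.FG A) {n : ℕ} (hn : 0 < n) :
    Finite (A ⧸ (nsmulAddMonoidHom (α := A) n).range) := by
  refine finite_of_fg_torsion (fg_of_surjective (QuotientAddGroup.mk' _)
    (QuotientAddGroup.mk'_surjective _) hA) fun a => ⟨n, hn, ?_⟩
  obtain ⟨x, rfl⟩ := QuotientAddGroup.mk_surjective a
  rw [← QuotientAddGroup.mk_nsmul, QuotientAddGroup.eq_zero_iff]
  exact ⟨x, rfl⟩

/-! ### the variety itself -/

section

variable {N A W C U : Type} [AddCommGroup N] [AddCommGroup A] [AddCommGroup W]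
    [AddCommGroup C] [AddCommGroup U]

theorem exists_hom {A B : Type} [AddCommGroup A] [AddCommGroup B] {f : A → B} (h : IsAdd f) :
    ∃ F : A →+ B, ∀ x, F x = f x := ⟨AddMonoidHom.mk' f h, fun _ => rfl⟩

theorem InSequences.fin (h : InSequences N W C U) (hN : ∀ x : N, x = 0) (hW : AddGroup.FG W)
    (hU : IsTorsion U) : Finite U ∧ AddGroup.FG C := by
  obtain ⟨A, _, δ, α, γ, β, hδ, hα, hγ, hβ, h1, h2, h3, h4, h5⟩ := h
  obtain ⟨F, hF⟩ := exists_hom hα
  have hinj : Function.Injective F := by
    rw [injective_iff_map_eq_zero]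
    intro x hx
    rw [hF] at hx
    obtain ⟨y, rfl⟩ := (h1 x).1 hx
    obtain ⟨D, hD⟩ := exists_hom hδ
    rw [hN y, ← hD, map_zero]
  have hA : AddGroup.FG A := fg_of_injective F hinj hW
  obtain ⟨G, hG⟩ := exists_hom hγ
  obtain ⟨B, hB⟩ := exists_hom hβ
  refine ⟨finite_of_fg_torsion (fg_of_surjective B (fun u => ?_) hA) hU,
    fg_of_injective G (fun a b hab => h2 (by rw [← hG, ← hG]; exact hab)) hA⟩
  obtain ⟨x, hx⟩ := h4 u
  exact ⟨x, (hB x).trans hx⟩

/-- The `n`-torsion of `H³_nr` is finite if `CH²` is finitely generated. -/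
theorem InSequences.tors (h : InSequences N W C U) (hC : AddGroup.FG C) {n : ℕ} (hn : 0 < n) :
    {u : U | n • u = 0}.Finite := by
  obtain ⟨A, _, δ', α', γ', β', -, -, hγ', hβ', -, hinj, hex', hsur', htors⟩ := h
  obtain ⟨γ, hγ⟩ := exists_hom hγ'
  obtain ⟨β, hβ⟩ := exists_hom hβ'
  have hex : ∀ x, β x = 0 ↔ ∃ y, γ y = x := by
    intro x
    rw [hβ, hex' x]
    exact exists_congr fun y => by rw [hγ]
  have hsur : Function.Surjective β := fun u => by
    obtain ⟨x, hx⟩ := hsur' u
    exact ⟨x, (hβ x).trans hx⟩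
  -- choose lifts
  have hsel : ∀ u : {u : U | n • u = 0}, ∃ (a : A) (c : C), β a = u ∧ γ c = n • a := by
    rintro ⟨u, hu⟩
    obtain ⟨a, rfl⟩ := hsur u
    have h1 : β (n • a) = 0 := by rw [map_nsmul]; exact hu
    obtain ⟨c, hc⟩ := (hex _).1 h1
    exact ⟨a, c, rfl, hc⟩
  choose a c ha hc using hsel
  have hfin := finite_mod hC hn
  have htor : Finite {x : A | n • x = 0} := (htors n hn).to_subtype
  -- for each class of `c u` choose a representative `u'`; then `a u - a u'` is torsion up to `γ`
  set q : {u : U | n • u = 0} → C ⧸ (nsmulAddMonoidHom (α := C) n).range :=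
    fun u => QuotientAddGroup.mk (c u) with hq
  have hfib : ∀ y, {u : {u : U | n • u = 0} | q u = y}.Finite := by
    intro y
    by_cases hne : {u : {u : U | n • u = 0} | q u = y}.Nonempty
    · obtain ⟨u0, hu0⟩ := hne
      have key : ∀ u : {u : {u : U | n • u = 0} | q u = y}, ∃ x : {x : A | n • x = 0},
          β (x : A) = (u : {u : U | n • u = 0}) - (u0 : U) := by
        rintro ⟨u, hu⟩
        have h1 : q u = q u0 := hu.trans hu0.symm
        obtain ⟨z, hz⟩ := QuotientAddGroup.eq.1 h1
        have hz' : n • z = -c u + c u0 := hz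
        refine ⟨⟨a u - a u0 + γ z, ?_⟩, ?_⟩
        · show n • (a u - a u0 + γ z) = 0
          rw [nsmul_add, nsmul_sub, ← hc, ← hc, ← map_nsmul, hz', map_add, map_neg]
          abel
        · show β (a u - a u0 + γ z) = _
          have h2 : β (γ z) = 0 := (hex _).2 ⟨z, rfl⟩
          rw [map_add, map_sub, h2, add_zero, ha, ha]
      choose x hx using key
      have hinj : Function.Injective x := by
        intro u v huv
        have h1 := hx u
        rw [huv, hx v] at h1
        have h2 := sub_left_injective h1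
        exact Subtype.ext (Subtype.ext h2.symm)
      have hf : Finite {u : {u : U | n • u = 0} | q u = y} := Finite.of_injective x hinj
      exact Set.toFinite _
    · rw [Set.not_nonempty_iff_eq_empty.1 hne]
      exact Set.finite_empty
  have h3 : Finite {u : U | n • u = 0} := by
    have h4 : (Set.univ : Set {u : U | n • u = 0}) = ⋃ y, {u | q u = y} := by
      ext u; simp
    have h5 : (Set.univ : Set {u : U | n • u = 0}).Finite := by
      rw [h4]
      exact Set.finite_iUnion hfib
    exact Set.finite_univ_iff.1 h5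
  exact Set.toFinite _

end

variable {Ω V : Type} [Field Ω] {T : Homology Ω V} {S : V → Prop} {dim : V → ℤ}
  {W : V → ℤ → ℤ → Type} [∀ X n i, AddCommGroup (W X n i)] {D : CodimTwo V}

theorem fin3_of_tb (hT : IsHomology T) (hD : IsCodimTwo T S dim W D) {X : V} (hX : S X)
    (h : TB T X) : Fin3 D X :=
  (hD.sequences X hX).fin (fun x => m_eq_zero hT h (hD.pure X hX) (by omega) x)
    (hD.weilEtale X hX h 2 4) (hD.torsion X hX)

theorem fin3_of_cyclesFrom (hD : IsCodimTwo T S dim W D) {X Y : V} (hX : S X)
    (h : CyclesFrom D Y X) (hY : Fin3 D Y) : Fin3 D X := by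
  obtain ⟨n, hn, ⟨ψ', φ', hψ', hφ', h1⟩, P, _, a', b', c', d', hP, ha', hb', hc', hd', h2⟩ := h
  obtain ⟨hY1, hY2⟩ := hY
  obtain ⟨b, hb⟩ := exists_hom hb'
  obtain ⟨d, hd⟩ := exists_hom hd'
  -- the Chow group
  have hC : AddGroup.FG (D.C X) := by
    set e : D.C Y × P →+ D.C X := b.coprod d with he
    have hsrc : AddGroup.FG (D.C Y × P) := by
      rw [fg_iff_finite] at hY2 hP ⊢
      infer_instance
    have hR : AddGroup.FG e.range :=
      fg_of_surjective e.rangeRestrict e.rangeRestrict_surjective hsrc
    refine fg_of_hom (nsmulAddMonoidHom (α := D.C X) n) ?_ hR fun x => ?_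
    · refine (hD.chowTorsion X hX).subset fun x hx => ?_
      exact ⟨n, hn, hx⟩
    · refine ⟨(a' x, c' x), ?_⟩
      show b (a' x) + d (c' x) = n • x
      rw [hb, hd]
      exact h2 x
  refine ⟨?_, hC⟩
  refine finite_of_hom (nsmulAddMonoidHom (α := D.U X) n)
    ((hD.sequences X hX).tors hC hn) ?_
  have hfin : (Set.range φ').Finite := Set.finite_range φ'
  refine hfin.subset ?_
  rintro _ ⟨u, rfl⟩
  exact ⟨ψ' u, h1 u⟩

/-- The core theorem. -/
theorem fin3_of_dominated (hT : IsHomology T) (hD : IsCodimTwo T S dim W D) {B : V → Prop}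
    (hB : ∀ X, B X → TB T X) {X : V}
    (hX : Dominated D S (fun Y => S Y ∧ (dim Y ≤ 2 ∨ B Y)) X) : Fin3 D X := by
  induction hX with
  | base X h =>
    rcases h with ⟨hS, h | h⟩
    · exact (hD.surface X hS h).1
    · exact fin3_of_tb hT hD hS (hB X h)
  | step Y X hX h _ ih => exact fin3_of_cyclesFrom hD hX h ih

end Pool.Agent.T2H38.UN
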