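import Mathlib
import Pool.Agent.R900.PT.Defs
import Pool.Agent.TH117.GN.WeilEtaleDefs

/-!
# Unramified cohomology of degree three over finite fields: definitions

`Homology Ω V` are data of the motivic homology `M X n j = H_n^M(X, ℚ(j)) = CH_j(X, n - 2 j) ⊗ ℚ` and of
the `ℓ`-adic homology of schemes `X : V` of finite type over finite fields.
-/

set_option autoImplicit false

namespace Pool.Agent.T2H38.UN

open Pool.Agent.W495.FM
open Pool.Agent.TH117.GN (IsWeilEtale)
open Pool.Agent.R900.PT (IsPure IsTorsion)

/-- The torsion subgroup of `A` is finite. -/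
def HasFiniteTorsion (A : Type) [AddCommGroup A] : Prop :=
  {x : A | ∃ n : ℕ, 0 < n ∧ n • x = 0}.Finite

/-- There are a group `A` and homomorphisms `δ`, `α`, `γ`, `β` such that the sequences `N → A → W` and
`0 → C → A → U → 0` are exact; for `n > 0` the `n`-torsion of `A` is finite. -/
def InSequences (N W C U : Type) [AddCommGroup N] [AddCommGroup W] [AddCommGroup C]
    [AddCommGroup U] : Prop :=
  ∃ (A : Type) (_ : AddCommGroup A) (δ : N → A) (α : A → W) (γ : C → A) (β : A → U),
    IsAdd δ ∧ IsAdd α ∧ IsAdd γ ∧ IsAdd β ∧ (∀ x, α x = 0 ↔ ∃ y, δ y = x) ∧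
      Function.Injective γ ∧ (∀ x, β x = 0 ↔ ∃ y, γ y = x) ∧ Function.Surjective β ∧
        ∀ n : ℕ, 0 < n → {x : A | n • x = 0}.Finite

/-- The multiplication by `n` on `A` factors through `B`. -/
def Factors (A B : Type) [AddCommGroup A] [AddCommGroup B] (n : ℕ) : Prop :=
  ∃ (ψ : A → B) (φ : B → A), IsAdd ψ ∧ IsAdd φ ∧ ∀ u, φ (ψ u) = n • u

/-- The multiplication by `n` on `A` is the sum of a homomorphism which factors through `B` and of
one which factors through a finitely generated group `P`. -/
def FactorsUpTo (A B : Type) [AddCommGroup A] [AddCommGroup B] (n : ℕ) : Prop :=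
  ∃ (P : Type) (_ : AddCommGroup P) (a : A → B) (b : B → A) (c : A → P) (d : P → A),
    AddGroup.FG P ∧ IsAdd a ∧ IsAdd b ∧ IsAdd c ∧ IsAdd d ∧ ∀ x, b (a x) + d (c x) = n • x

/-- The groups `C X = CH²(X)` (integral coefficients) and `U X = H³_nr(X, ℚ/ℤ(2))`. -/
structure CodimTwo (V : Type) where
  C : V → Type
  U : V → Type
  [cgrp : ∀ X, AddCommGroup (C X)]
  [ugrp : ∀ X, AddCommGroup (U X)]

attribute [instance] CodimTwo.cgrp CodimTwo.ugrp

/-- `H³_nr(X, ℚ/ℤ(2))` is finite and `CH²(X)` is finitely generated. -/
def Fin3 {V : Type} (D : CodimTwo V) (X : V) : Prop := Finite (D.U X) ∧ AddGroup.FG (D.C X)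

/-- The facts about the groups `C X = CH²(X)` and `U X = H³_nr(X, ℚ/ℤ(2))` of the smooth projective
varieties `X` over finite fields (those with the property `S`), `dim X` the dimension:

* `pure`: the Weil conjectures (Deligne);
* `weilEtale`: the Weil-étale groups `W X n i = H^i_W(X, ℤ(n))` are finitely generated if the conjecture
  of Tate and Beilinson holds for `X` (Geisser, Kahn);
* `sequences`: the exact sequences `H²(X, ℚ(2)) → A → H⁴_W(X, ℤ(2))` (Geisser) and
  `0 → CH²(X) → A → H³_nr(X, ℚ/ℤ(2)) → 0` (Kahn), `A = H⁴_ét(X, ℤ(2))` the étale motivic cohomology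
  group; the `n`-torsion of `A` is finite, as a quotient of the group `H³_ét(X, ℤ/n(2))`;
* `torsion`: `H³_nr(X, ℚ/ℤ(2))` is a torsion group;
* `chowTorsion`: the torsion of `CH²(X)` is finite (Colliot-Thélène, Sansuc, Soulé; Gros, Suwa);
* `surface`: for `dim X ≤ 2` the group `H³_nr(X, ℚ/ℤ(2))` is zero, and `CH²(X)` is finitely generated
  (Colliot-Thélène, Sansuc, Soulé; Kato, Saito). -/
structure IsCodimTwo {Ω V : Type} [Field Ω] (T : Homology Ω V) (S : V → Prop) (dim : V → ℤ)
    (W : V → ℤ → ℤ → Type) [∀ X n i, AddCommGroup (W X n i)] (D : CodimTwo V) : Prop where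
  pure : ∀ X, S X → IsPure T X
  weilEtale : IsWeilEtale T S W
  sequences : ∀ X, S X →
    InSequences (T.M X (2 * dim X - 2) (dim X - 2)) (W X 2 4) (D.C X) (D.U X)
  torsion : ∀ X, S X → IsTorsion (D.U X)
  chowTorsion : ∀ X, S X → HasFiniteTorsion (D.C X)
  surface : ∀ X, S X → dim X ≤ 2 → Fin3 D X ∧ Subsingleton (D.U X)

/-- Up to a multiple `n > 0`, the identity of `H³_nr(X, ℚ/ℤ(2))` factors through `H³_nr(Y, ℚ/ℤ(2))`, and the
identity of `CH²(X)` is the sum of a map which factors through `CH²(Y)` and of a map which factors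
through a finitely generated group `P`.

By the theorem of Bloch and Srinivas this is the case if for some morphism (or correspondence) from
`Y` to `X` the zero-cycles on `X` over a universal domain come from `Y`, up to multiples: then a
multiple of the diagonal of `X` is the sum of a correspondence which factors through `Y` and of one
which is supported on `D × X` for a divisor `D`; the latter acts on `H³_nr(X, ℚ/ℤ(2))` as zero and on
`CH²(X)` through the Picard group of an alteration of `D`. It is for instance the case if there is a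
dominant rational map from `Y` to `X`, if `X` and `Y` are birationally equivalent, if `X` is fibred over
`Y` with rationally chain connected geometric generic fibre. -/
def CyclesFrom {V : Type} (D : CodimTwo V) (Y X : V) : Prop :=
  ∃ n : ℕ, 0 < n ∧ Factors (D.U X) (D.U Y) n ∧ FactorsUpTo (D.C X) (D.C Y) n

/-- The smallest class of varieties which contains those with the property `B`, and all the smooth
projective `X` with `CyclesFrom D Y X` for some member `Y`. -/
inductive Dominated {V : Type} (D : CodimTwo V) (S B : V → Prop) : V → Prop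
  | base (X : V) (h : B X) : Dominated D S B X
  | step (Y X : V) (hX : S X) (h : CyclesFrom D Y X) (hY : Dominated D S B Y) : Dominated D S B X

end Pool.Agent.T2H38.UN
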